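import Pool.Agent.Lib.MP_49fa77_co.H30.Iface3

/-!
# NM: the final inequality between numbers
-/

set_option autoImplicit false

namespace FT58.AS.H70

open Real FT58 FT58.AS

lemma nm_poly {b : ℝ} (hb : 0 < b) :
    192 * b ^ 2 * (282 / 10000 - 805 / 10000 * b) ≤ (465 / 1000) ^ 3 := by
  nlinarith [mul_nonneg hb.le (sq_nonneg (b - 2335 / 10000)), sq_nonneg (b - 2335 / 10000)]

lemma nm_amgm {m k B L A : ℝ} (hm : 0 < m) (hk : 0 < k) (hB : 0 < B)
    (hL : 465 / 1000 * m * k ^ 3 ≤ L) (hA : 161 / 1000 / k ^ 6 ≤ A) :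
    28 / 1000 * m / k ≤ A * B / 2 + L ^ 3 / (192 * B ^ 2) := by
  obtain ⟨b, hb⟩ : ∃ b, b = B / (m * k ^ 5) := ⟨_, rfl⟩
  have hmk : 0 < m * k ^ 5 := by positivity
  have hb0 : 0 < b := by rw [hb]; positivity
  have hB' : B = b * (m * k ^ 5) := by rw [hb]; field_simp
  have h1 : (465 / 1000 * m * k ^ 3) ^ 3 ≤ L ^ 3 :=
    pow_le_pow_left₀ (by positivity) hL 3
  have h2 : 282 / 10000 * m / k - 805 / 10000 * B / k ^ 6 ≤ L ^ 3 / (192 * B ^ 2) := by
    rw [le_div_iff₀ (by positivity)]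
    refine le_trans ?_ h1
    have e1 : (282 / 10000 * m / k - 805 / 10000 * B / k ^ 6) * (192 * B ^ 2)
        = (192 * b ^ 2 * (282 / 10000 - 805 / 10000 * b)) * (m ^ 3 * k ^ 9) := by
      rw [hB']; field_simp
    have e2 : (465 / 1000 * m * k ^ 3) ^ 3 = (465 / 1000) ^ 3 * (m ^ 3 * k ^ 9) := by ring
    rw [e1, e2]
    exact mul_le_mul_of_nonneg_right (nm_poly hb0) (by positivity)
  have h3 : 161 / 1000 / k ^ 6 * B ≤ A * B := mul_le_mul_of_nonneg_right hA hB.le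
  have h4 : 161 / 1000 / k ^ 6 * B = 2 * (805 / 10000 * B / k ^ 6) := by ring
  have h5 : 28 / 1000 * m / k ≤ 282 / 10000 * m / k := by
    apply div_le_div_of_nonneg_right _ hk.le
    nlinarith
  linarith

/-- The numerical facts about `d = 1 - D`. -/
lemma nm_num {c x k n d s : ℝ} (hc : 3 * √3 / 4 * c = √3 - π / 2) (hx0 : 0 < x)
    (hx : x ≤ 1 / 10) (hkx : k * x = 1) (hn : n = k ^ 6)
    (hd : d = c * x ^ 6 + 1 / 200 * x ^ 7) (hs : s = √d) :
    0 < c ∧ c + 1 / 200 * x ≤ 125 / 1000 ∧ n * d = c + 1 / 200 * x ∧ 0 < d ∧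
      d ≤ 125 / 1000 * x ^ 6 ∧ 0 ≤ s ∧ s ≤ 1 / 1000 := by
  have h31 : (1.732 : ℝ) < √3 := by
    rw [show (1.732 : ℝ) = √(1.732 ^ 2) by rw [Real.sqrt_sq (by norm_num)]]
    exact Real.sqrt_lt_sqrt (by norm_num) (by norm_num)
  have h32 : √3 < (1.7321 : ℝ) := by
    rw [show (1.7321 : ℝ) = √(1.7321 ^ 2) by rw [Real.sqrt_sq (by norm_num)]]
    exact Real.sqrt_lt_sqrt (by norm_num) (by norm_num)
  have hp1 := Real.pi_gt_d4
  have hp2 := Real.pi_lt_d4
  have hc0 : 0 < c := by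
    by_contra h
    push Not at h
    nlinarith
  have hc1 : c ≤ 1243 / 10000 := by
    by_contra h
    push Not at h
    nlinarith
  have h1 : c + 1 / 200 * x ≤ 125 / 1000 := by linarith
  have hx6 : 0 < x ^ 6 := by positivity
  have hd' : d = (c + 1 / 200 * x) * x ^ 6 := by rw [hd]; ring
  have hd0 : 0 < d := by rw [hd']; positivity
  have hd1 : d ≤ 125 / 1000 * x ^ 6 := by
    rw [hd']; exact mul_le_mul_of_nonneg_right h1 hx6.le
  have hx6' : x ^ 6 ≤ (1 / 10) ^ 6 := pow_le_pow_left₀ hx0.le hx 6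
  refine ⟨hc0, h1, ?_, hd0, hd1, hs ▸ Real.sqrt_nonneg _, ?_⟩
  · rw [hd', hn]
    have : k ^ 6 * x ^ 6 = 1 := by rw [← mul_pow, hkx, one_pow]
    calc k ^ 6 * ((c + 1 / 200 * x) * x ^ 6) = (c + 1 / 200 * x) * (k ^ 6 * x ^ 6) := by ring
      _ = _ := by rw [this, mul_one]
  · rw [hs]
    apply Real.sqrt_le_iff.mpr
    constructor
    · norm_num
    · norm_num at hx6' ⊢
      linarith

lemma nm_main {c x k n d s : ℝ} (hc : 3 * √3 / 4 * c = √3 - π / 2) (hx0 : 0 < x)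
    (hx : x ≤ 1 / 10) (hkx : k * x = 1) (hn : n = k ^ 6)
    (hd : d = c * x ^ 6 + 1 / 200 * x ^ 7) (hs : s = √d)
    {κ A : ℝ} (hκ : κ = √3 - π / 2 - √3 * d) (hA : A = 3 * √3 / 4 * d + 12 * d ^ 2)
    {N m t B V G X L : ℝ} (hm : 0 < m) (hN : N = n * m) (ht : 0 ≤ t) (hB : 0 ≤ B)
    (htB : t + B + 2 * m ≤ 2 * N) (hV1 : -(κ + A) * t ≤ V) (hV2 : -κ * t - d * (X / 2) ≤ V)
    (hG1 : -(κ + 4 * (d * s)) * B ≤ G)
    (hG2 : -(κ + 6 * (d * s)) * B + L ^ 3 / (192 * B ^ 2) ≤ G) (hL : 0 ≤ L)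
    (hBL : B = 0 → L = 0) (hX : X ≤ N ∨ m * X ≤ 6 * L ^ 2) : 0 ≤ N * (2 * κ) + V + G := by
  obtain ⟨hc0, hc1, hnd, hd0, hd1, hs0, hs1⟩ := nm_num hc hx0 hx hkx hn hd hs
  have h31 : (1.732 : ℝ) < √3 := by
    rw [show (1.732 : ℝ) = √(1.732 ^ 2) by rw [Real.sqrt_sq (by norm_num)]]
    exact Real.sqrt_lt_sqrt (by norm_num) (by norm_num)
  have h32 : √3 < (1.7321 : ℝ) := by
    rw [show (1.7321 : ℝ) = √(1.7321 ^ 2) by rw [Real.sqrt_sq (by norm_num)]]
    exact Real.sqrt_lt_sqrt (by norm_num) (by norm_num)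
  have hp1 := Real.pi_gt_d4
  have hp2 := Real.pi_lt_d4
  have hk : 0 < k := by
    by_contra h
    push Not at h
    nlinarith
  have hn0 : 0 < n := by rw [hn]; positivity
  have hN0 : 0 < N := by rw [hN]; positivity
  have hx6' : x ^ 6 ≤ (1 / 10) ^ 6 := pow_le_pow_left₀ hx0.le hx 6
  have hd2 : d ≤ 1 / 1000000 := by
    norm_num at hx6'
    linarith
  have hnd0 : 0 < n * d := by positivity
  have hκ0 : 0 < κ := by rw [hκ]; nlinarith
  have hA0 : 0 < A := by rw [hA]; positivity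
  have hds : 0 ≤ d * s := by positivity
  -- the first two cases
  have hpos : 0 ≤ 2 * κ - 3 * √3 / 4 * (n * d) - 12 * (n * d) * d - 8 * (n * d) * s := by
    rw [hκ, hnd]
    have e1 : 3 * √3 / 4 * (c + 1 / 200 * x) = (√3 - π / 2) + 3 * √3 / 4 * (1 / 200 * x) := by
      rw [mul_add, hc]
    rw [e1]
    have e2 : (c + 1 / 200 * x) * d ≤ 125 / 1000 * (1 / 1000000) :=
      mul_le_mul hc1 hd2 hd0.le (by norm_num)
    have e3 : (c + 1 / 200 * x) * s ≤ 125 / 1000 * (1 / 1000) :=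
      mul_le_mul hc1 hs1 hs0 (by norm_num)
    have e4 : √3 * d ≤ 1.7321 * (1 / 1000000) := mul_le_mul h32.le hd2 hd0.le (by norm_num)
    have e5 : √3 * x ≤ 1.7321 * (1 / 10) := mul_le_mul h32.le hx hx0.le (by norm_num)
    nlinarith
  have hκs : κ * (t + B + 2 * m) ≤ κ * (2 * N) := mul_le_mul_of_nonneg_left htB hκ0.le
  have ht2 : t ≤ 2 * N := by linarith
  have hB2 : B ≤ 2 * N := by linarith
  have hdsB : d * s * B ≤ d * s * (2 * N) := mul_le_mul_of_nonneg_left hB2 hds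
  have hmpos := mul_nonneg hm.le hpos
  by_cases h1 : X ≤ 3 * √3 / 4 * t
  · have g1 : d * X ≤ d * (3 * √3 / 4 * t) := mul_le_mul_of_nonneg_left h1 hd0.le
    have g2 : d * (3 * √3 / 4) * t ≤ d * (3 * √3 / 4) * (2 * N) :=
      mul_le_mul_of_nonneg_left ht2 (by positivity)
    have g3 : 0 ≤ m * (12 * (n * d) * d) := by positivity
    have g4 : d * (3 * √3 / 4) * (2 * N) = 2 * (m * (3 * √3 / 4 * (n * d))) := by rw [hN]; ring
    have g5 : d * s * (2 * N) = 2 * (m * ((n * d) * s)) := by rw [hN]; ring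
    nlinarith
  by_cases h2 : t ≤ N
  · have g1 : A * t ≤ A * N := mul_le_mul_of_nonneg_left h2 hA0.le
    have g2 : A * N = m * (3 * √3 / 4 * (n * d) + 12 * (n * d) * d) := by rw [hA, hN]; ring
    have g5 : d * s * (2 * N) = 2 * (m * ((n * d) * s)) := by rw [hN]; ring
    nlinarith
  push Not at h1 h2
  -- the third case
  have h3 : 3 * √3 / 4 * N < X := by
    refine lt_trans ?_ h1
    exact mul_lt_mul_of_pos_left h2 (by positivity)
  have h4 : m * X ≤ 6 * L ^ 2 := by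
    rcases hX with h | h
    · exfalso
      nlinarith
    · exact h
  have h5 : m * (3 * √3 / 4 * N) ≤ 6 * L ^ 2 :=
    (mul_le_mul_of_nonneg_left h3.le hm.le).trans h4
  have h6 : (465 / 1000 * m * k ^ 3) ^ 2 ≤ L ^ 2 := by
    have e1 : (465 / 1000 * m * k ^ 3) ^ 2 = (465 / 1000) ^ 2 * (m ^ 2 * k ^ 6) := by ring
    have e2 : m * (3 * √3 / 4 * N) = 3 * √3 / 4 * (m ^ 2 * k ^ 6) := by rw [hN, hn]; ring
    rw [e2] at h5
    rw [e1]
    have e3 : 0 < m ^ 2 * k ^ 6 := by positivity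
    nlinarith
  have h7 : 465 / 1000 * m * k ^ 3 ≤ L := by
    exact (sq_le_sq₀ (by positivity) hL).mp h6
  have hL0 : 0 < L := lt_of_lt_of_le (by positivity) h7
  have hB0 : 0 < B := by
    rcases hB.lt_or_eq with h | h
    · exact h
    · exact absurd (hBL h.symm) hL0.ne'
  have hAk : 161 / 1000 / k ^ 6 ≤ A := by
    have e1 : 3 * √3 / 4 * d ≤ A := by rw [hA]; nlinarith [sq_nonneg d]
    have e2 : 161 / 1000 / k ^ 6 ≤ 3 * √3 / 4 * d := by
      rw [div_le_iff₀ (by positivity), ← hn]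
      have : 3 * √3 / 4 * d * n = 3 * √3 / 4 * (n * d) := by ring
      rw [this, hnd, mul_add, hc]
      have : 0 ≤ 3 * √3 / 4 * (1 / 200 * x) := by positivity
      linarith
    exact e2.trans e1
  have h8 := nm_amgm hm hk hB0 h7 hAk
  have hxk : m / k = m * x := by
    rw [div_eq_iff hk.ne']
    calc m = m * (k * x) := by rw [hkx, mul_one]
      _ = _ := by ring
  have h8' : 28 / 1000 * (m * x) ≤ A * B / 2 + L ^ 3 / (192 * B ^ 2) := by
    rw [← hxk]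
    refine le_trans (le_of_eq ?_) h8
    ring
  have h9 : 6 * (d * s) * B ≤ A / 2 * B := by
    apply mul_le_mul_of_nonneg_right _ hB
    have e1 : 3 * √3 / 4 * d ≤ A := by rw [hA]; nlinarith [sq_nonneg d]
    have e2 : d * s ≤ d * (1 / 1000) := mul_le_mul_of_nonneg_left hs1 hd0.le
    nlinarith
  have h10 : -(14 / 1000) * x ≤ 2 * κ - 2 * (n * A) := by
    have e0 : n * A = 3 * √3 / 4 * (n * d) + 12 * (n * d) * d := by rw [hA]; ring
    rw [e0, hκ, hnd]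
    have e1 : 3 * √3 / 4 * (c + 1 / 200 * x) = (√3 - π / 2) + 3 * √3 / 4 * (1 / 200 * x) := by
      rw [mul_add, hc]
    rw [e1]
    have hx5 : x ^ 5 ≤ (1 / 10) ^ 5 := pow_le_pow_left₀ hx0.le hx 5
    have hx6 : x ^ 6 ≤ 1 / 100000 * x := by
      calc x ^ 6 = x ^ 5 * x := by ring
        _ ≤ (1 / 10) ^ 5 * x := mul_le_mul_of_nonneg_right hx5 hx0.le
        _ = _ := by norm_num
    have hdx : d ≤ 1 / 800000 * x := by linarith
    have e2 : (c + 1 / 200 * x) * d ≤ 125 / 1000 * (1 / 800000 * x) :=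
      mul_le_mul hc1 hdx hd0.le (by norm_num)
    have e4 : √3 * d ≤ 1.7321 * (1 / 800000 * x) := mul_le_mul h32.le hdx hd0.le (by norm_num)
    have e5 : √3 * x ≤ 1.7321 * x := mul_le_mul_of_nonneg_right h32.le hx0.le
    nlinarith
  have h11 : -(14 / 1000) * x * m ≤ (2 * κ - 2 * (n * A)) * m :=
    mul_le_mul_of_nonneg_right h10 hm.le
  have h12 : A * t ≤ A * (2 * N - 2 * m - B) :=
    mul_le_mul_of_nonneg_left (by linarith) hA0.le
  have h13 : A * N = n * A * m := by rw [hN]; ring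
  have h14 : 0 < A * m := by positivity
  have h15 : 0 < m * x := by positivity
  nlinarith

theorem nm_st : NmS := by
  refine ⟨1 / 200, by norm_num, 10 ^ 6, by norm_num, ?_⟩
  intro n hn D hD
  have hn0 : (0 : ℝ) < n := by
    have : 0 < n := lt_of_lt_of_le (by norm_num) hn
    exact_mod_cast this
  have hn1 : (10 : ℝ) ^ 6 ≤ n := by exact_mod_cast hn
  obtain ⟨k, hk⟩ : ∃ k : ℝ, k = (n : ℝ) ^ ((1 / 6 : ℝ)) := ⟨_, rfl⟩
  have hk6 : (n : ℝ) = k ^ 6 := by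
    rw [hk, ← Real.rpow_natCast, ← Real.rpow_mul hn0.le]
    norm_num
  have hk0 : 0 < k := by rw [hk]; positivity
  have hk10 : 10 ≤ k := by
    by_contra h
    push Not at h
    have : k ^ 6 < 10 ^ 6 := pow_lt_pow_left₀ h hk0.le (by norm_num)
    rw [← hk6] at this
    linarith
  obtain ⟨x, hx⟩ : ∃ x : ℝ, x = 1 / k := ⟨_, rfl⟩
  have hx0 : 0 < x := by rw [hx]; positivity
  have hkx : k * x = 1 := by rw [hx]; field_simp
  have hx1 : x ≤ 1 / 10 := by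
    rw [hx]; exact one_div_le_one_div_of_le (by norm_num) hk10
  obtain ⟨c, hc⟩ : ∃ c : ℝ, c = (2 * √3 - π) / (3 * √3 / 2) := ⟨_, rfl⟩
  have h30 : (0 : ℝ) < √3 := by positivity
  have hc' : 3 * √3 / 4 * c = √3 - π / 2 := by
    rw [hc]; field_simp; ring
  have hpow : (n : ℝ) ^ (-(7 / 6) : ℝ) = x ^ 7 := by
    rw [hk6, ← Real.rpow_natCast k 6, ← Real.rpow_mul hk0.le, hx, one_div, inv_pow,
      ← Real.rpow_natCast k 7, ← Real.rpow_neg hk0.le]
    norm_num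
  have hd : 1 - D = c * x ^ 6 + 1 / 200 * x ^ 7 := by
    rw [hD, Dn, hpow, ← hc, hk6]
    have : c / k ^ 6 = c * x ^ 6 := by rw [hx]; field_simp
    rw [this]
    ring
  obtain ⟨-, -, -, hd0, hd1, -, -⟩ := nm_num hc' hx0 hx1 hkx hk6 hd rfl
  have hx6' : x ^ 6 ≤ (1 / 10) ^ 6 := pow_le_pow_left₀ hx0.le hx1 6
  norm_num at hx6'
  refine ⟨by linarith, by linarith, ?_⟩
  intro N m t B V G X L hm hN ht hB htB hV1 hV2 hG1 hG2 hL hBL hX
  have hκ : kap D = √3 - π / 2 - √3 * (1 - D) := by rw [kap]; ring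
  exact nm_main hc' hx0 hx1 hkx hk6 hd rfl hκ rfl hm hN ht hB htB hV1 hV2 hG1 hG2 hL hBL hX

end FT58.AS.H70
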