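import Pool.Agent.Lib.MP_49fa77_co.H30.Iface

/-!
# HO: circulations on the Delaunay graph are boundaries
-/

set_option autoImplicit false

namespace FT58.AS.H70

open Real MeasureTheory Set Metric Filter Relation FT58 FT58.AS

lemma Lf_Eg {S : Finset ℂ} {c q : ℂ} (h : Lf (Tr S) c q) : Eg S c q := by
  obtain ⟨r, hr⟩ := h
  exact ⟨(Tr_ne hr).1, Tr_Ed hr⟩

open Classical in
lemma nE_split {S : Finset ℂ} {X Y : ℂ → ℂ → Prop} :
    (nE S X : ℝ) = nE S (fun c q => X c q ∧ Y c q) + nE S (fun c q => X c q ∧ ¬ Y c q) := by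
  rw [← sE_one, ← sE_one, ← sE_one]
  exact sE_split _

open Classical in
lemma nE_congr {S : Finset ℂ} {X Y : ℂ → ℂ → Prop}
    (h : ∀ c ∈ S, ∀ q ∈ S, (X c q ↔ Y c q)) : (nE S X : ℝ) = nE S Y := by
  have h1 : nE S X ≤ nE S Y := nE_le fun c hc q hq hx => (h c hc q hq).mp hx
  have h2 : nE S Y ≤ nE S X := nE_le fun c hc q hq hx => (h c hc q hq).mpr hx
  exact_mod_cast le_antisymm h1 h2

lemma conn (hGA : GaS) {S : Finset ℂ} {x y : ℂ} (hx : x ∈ S) (hy : y ∈ S) :
    ReflTransGen (fun c q => c ∈ S ∧ q ∈ S ∧ Eg S c q) x y := by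
  by_contra hcon
  obtain ⟨c, hc, q, hq, hA, hB, hE⟩ :=
    hGA S (fun z => ReflTransGen (fun c q => c ∈ S ∧ q ∈ S ∧ Eg S c q) x z)
      ⟨x, hx, ReflTransGen.refl⟩ ⟨y, hy, hcon⟩
  exact hB (hA.tail ⟨hc, hq, hE⟩)

open Classical in
lemma bw_zero {S : Finset ℂ} {w : ℂ → ℂ → ℂ → ℝ} {c q : ℂ} (h : ¬ Eg S c q) :
    bw S (Tr S) w c q = 0 := by
  unfold bw
  apply Finset.sum_eq_zero
  intro r _
  rw [if_neg]
  intro ht
  exact h (Lf_Eg ⟨r, ht⟩)

open Classical in
lemma bw_sum {S : Finset ℂ} {w : ℂ → ℂ → ℂ → ℝ} (hw : ∀ c q r, w q r c = w c q r) (c : ℂ) :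
    ∑ q ∈ S, bw S (Tr S) w c q = ∑ q ∈ S, bw S (Tr S) w q c := by
  unfold bw
  rw [Finset.sum_comm]
  refine Finset.sum_congr rfl fun q _ => Finset.sum_congr rfl fun r _ => ?_
  by_cases h : Tr S q c r
  · have h' : Tr S c r q := Tr_cyc h
    rw [if_pos h, if_pos h', hw q c r]
  · have h' : ¬ Tr S c r q := fun h' => h (Tr_cyc (Tr_cyc h'))
    rw [if_neg h, if_neg h']

theorem ho_st (hGA : GaS) (hEX : ExS) (hPE : PeS) (hTR : TrS) : HoS := by
  classical
  intro S hG hS φ hanti hsupp hcirc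
  obtain ⟨X, hXs, hXR, hXn, hXc, hXw⟩ := hPE S (fun _ _ => True) (Tr S) (fun _ _ _ => trivial)
    (Fam_Tr S) (by
      intro Y hY _ hne
      obtain ⟨c, q, r, h1, h2⟩ := hEX S Y hG hY hne
      exact ⟨c, q, r, h1, h2, trivial⟩)
  obtain ⟨w, hw, hwX⟩ := hXw φ hanti
  refine ⟨w, hw, ?_⟩
  have hXE : ∀ c q, X c q → Eg S c q := by
    intro c q h
    rcases (hXR c q h).2 with h' | h'
    · exact Lf_Eg h'
    · exact Eg_symm (Lf_Eg h')
  have key := hTR S (fun c q => Eg S c q ∧ ¬ X c q)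
    (fun c q h => ⟨Eg_symm h.1, fun h' => h.2 (hXs _ _ h')⟩)
    (fun c h => h.1.1 rfl)
    (by
      intro x hx y hy
      have h1 := hXc (fun c q => c ∈ S ∧ q ∈ S ∧ Eg S c q)
        (fun c q h => ⟨h.2.1, h.1, Eg_symm h.2.2⟩)
        (by
          rintro c q ⟨r, hr⟩
          exact ⟨hr.1, hr.2.1, Lf_Eg ⟨r, hr⟩⟩) x y (conn hGA hx hy)
      exact ReflTransGen.lift id (fun c q h => ⟨h.1.1, h.1.2.1, h.1.2.2, h.2⟩) x y h1)
    (by
      have e1 := euler_count hG hS
      have e2 : (nE S (Eg S) : ℝ) = nE S (Lf (Tr S)) + nE S (Hl S) := by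
        rw [nE_split (X := Eg S) (Y := Lf (Tr S))]
        congr 1
        apply nE_congr
        intro c _ q _
        exact ⟨fun h => h.2, fun h => ⟨Lf_Eg h, h⟩⟩
      have e3 : (nE S (Eg S) : ℝ) = nE S X + nE S (fun c q => Eg S c q ∧ ¬ X c q) := by
        rw [nE_split (X := Eg S) (Y := X)]
        congr 1
        apply nE_congr
        intro c _ q _
        exact ⟨fun h => h.2, fun h => ⟨hXE c q h, h⟩⟩
      have e4 : (3 : ℝ) * nE S X = 2 * nE S (Lf (Tr S)) := by exact_mod_cast hXn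
      have : (nE S (fun c q => Eg S c q ∧ ¬ X c q) : ℝ) + 2 ≤ 2 * S.card := by linarith
      exact_mod_cast this)
    (fun c q => φ c q - (bw S (Tr S) w c q - bw S (Tr S) w q c))
    (by
      intro c q
      rw [hanti c q]
      ring)
    (by
      intro c hc q hq hne
      by_contra hcon
      apply hne
      by_cases hE : Eg S c q
      · have hX : X c q := by
          by_contra h
          exact hcon ⟨hE, h⟩
        rw [hwX c q hX]
        ring
      · have h0 : φ c q = 0 := by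
          by_contra h
          exact hE (hsupp c hc q hq h)
        have hE' : ¬ Eg S q c := fun h => hE (Eg_symm h)
        rw [h0, bw_zero hE, bw_zero hE']
        ring)
    (by
      intro c hc
      rw [Finset.sum_sub_distrib, Finset.sum_sub_distrib, hcirc c hc, bw_sum hw c]
      ring)
  intro c hc q hq
  have := key c hc q hq
  linarith

end FT58.AS.H70
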